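import Pool.Agent.H90.LCS.All

/-! The critical scale of the least coordinate in a representation by three squares. -/

namespace Pool.Agent.Results.MP_232a1c_nt.CriticalScale

/-- `n = x₁ ^ 2 + x₂ ^ 2 + x₃ ^ 2` for some integers with `|x₃| ≤ B`. -/
def SmallSquare (n : ℕ) (B : ℝ) : Prop :=
  ∃ x₁ x₂ x₃ : ℤ, x₁ ^ 2 + x₂ ^ 2 + x₃ ^ 2 = (n : ℤ) ∧ |(x₃ : ℝ)| ≤ B

/-- The admissible integers: odd, squarefree and not `7 mod 8`. -/
def Admissible (n : ℕ) : Prop := Odd n ∧ Squarefree n ∧ n % 8 ≠ 7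

/-- (1) There are `c, C > 0` such that for `0 < lam ≤ 1` and all large `N` at least `c lam N`
admissible `n < N`, and at most `C lam N` integers `n < N` at all, have a representation with
`|x₃| ≤ lam √(log n)`. (2) For every `lam > 0` there is `δ > 0` such that for all large `N` at
least `δ N` admissible `n < N` have no such representation. -/
theorem result :
    (∃ c C : ℝ, 0 < c ∧ 0 < C ∧ ∀ lam : ℝ, 0 < lam → lam ≤ 1 → ∃ N₀ : ℕ, ∀ N : ℕ, N₀ ≤ N →
      c * lam * N ≤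
        (({n | n < N ∧ Admissible n ∧ SmallSquare n (lam * √(Real.log n))} : Set ℕ).ncard : ℝ) ∧
      (({n | n < N ∧ SmallSquare n (lam * √(Real.log n))} : Set ℕ).ncard : ℝ) ≤ C * lam * N) ∧
    ∀ lam : ℝ, 0 < lam → ∃ δ : ℝ, 0 < δ ∧ ∃ N₀ : ℕ, ∀ N : ℕ, N₀ ≤ N →
      δ * N ≤
        (({n | n < N ∧ Admissible n ∧ ¬ SmallSquare n (lam * √(Real.log n))} : Set ℕ).ncard : ℝ) :=
  Pool.Agent.H90.LCS.main

end Pool.Agent.Results.MP_232a1c_nt.CriticalScale
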