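import Pool.Agent.H90.LCL.All

/-! Many integers all of whose representations by three squares have large coordinates. -/

namespace Pool.Agent.Results.MP_232a1c_nt.LargeLeastCoordinate

/-- In every representation `n = x₁ ^ 2 + x₂ ^ 2 + x₃ ^ 2` by integers the coordinate `x₃` (and
hence every coordinate) has absolute value larger than `X`. -/
def AllLarge (n : ℕ) (X : ℝ) : Prop :=
  ∀ x₁ x₂ x₃ : ℤ, x₁ ^ 2 + x₂ ^ 2 + x₃ ^ 2 = (n : ℤ) → X < |(x₃ : ℝ)|

/-- The squarefree `n ≤ N`, `n ≡ 3 mod 8`, without representations with a coordinate of absolute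
value at most `X`. -/
def Exceptional (N : ℕ) (X : ℝ) : Set ℕ :=
  {n | n ≤ N ∧ n % 8 = 3 ∧ Squarefree n ∧ AllLarge n X}

/-- (1) For all large `X` and all `N ≥ exp (C X √(log log X / log X))` there are at least
`N exp (- C X √(log log X / log X))` exceptional integers up to `N`.
(2) For every `δ > 0` there is `c > 0` such that for all large `N` there are at least
`N ^ (1 - δ)` integers `n ≤ N` which are exceptional for
`X = c log N √(log log N / log log log N)`. -/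
theorem result :
    (∃ C : ℝ, 0 < C ∧ ∀ (X : ℝ) (N : ℕ), C ≤ X →
      Real.exp (C * (X * √(Real.log (Real.log X) / Real.log X))) ≤ N →
        N * Real.exp (-(C * (X * √(Real.log (Real.log X) / Real.log X)))) ≤
          ((Exceptional N X).ncard : ℝ)) ∧
    ∀ δ : ℝ, 0 < δ → ∃ c : ℝ, 0 < c ∧ ∃ N₀ : ℕ, ∀ N : ℕ, N₀ ≤ N →
      (N : ℝ) ^ (1 - δ) ≤ ((Exceptional N (c * Real.log N *
        √(Real.log (Real.log N) / Real.log (Real.log (Real.log N))))).ncard : ℝ) := by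
  obtain ⟨C, hC, h⟩ := Pool.Agent.H90.LCL.all_count
  have hfin : ∀ (N : ℕ) (X : ℝ), (Exceptional N X).Finite := fun N X =>
    (Set.finite_Iic N).subset fun n hn => hn.1
  have hle : ∀ (N : ℕ) (X : ℝ) (S : Finset ℕ), (∀ n ∈ S, n ≤ N ∧ n % 8 = 3 ∧ Squarefree n ∧
      ∀ x₁ x₂ x₃ : ℤ, x₁ ^ 2 + x₂ ^ 2 + x₃ ^ 2 = n → X < |(x₃ : ℝ)|) →
      (S.card : ℝ) ≤ ((Exceptional N X).ncard : ℝ) := by
    intro N X S hS
    have hsub : (S : Set ℕ) ⊆ Exceptional N X := fun n hn => hS n hn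
    have h1 : (S : Set ℕ).ncard ≤ (Exceptional N X).ncard := Set.ncard_le_ncard hsub (hfin N X)
    rw [Set.ncard_coe_finset] at h1
    exact Nat.cast_le.2 h1
  refine ⟨⟨C, hC, fun X N hX hN => ?_⟩, fun δ hδ => ?_⟩
  · obtain ⟨S, hS, hS2⟩ := h X N hX hN
    exact hS2.trans (hle N X S hS)
  · obtain ⟨c, hc, N₀, h2⟩ := Pool.Agent.H90.LCL.delta hC h δ hδ
    refine ⟨c, hc, N₀, fun N hN => ?_⟩
    obtain ⟨S, hS, hS2⟩ := h2 N hN
    exact hS2.trans (hle N _ S hS)

end Pool.Agent.Results.MP_232a1c_nt.LargeLeastCoordinate
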