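import Pool.Agent.H44.MS.Final

/-! The least coordinate in a representation by three squares, for almost all integers. -/

namespace Pool.Agent.Results.MP_232a1c_nt.LeastCoordinate

open Filter Topology

/-- `n = x₁ ^ 2 + x₂ ^ 2 + x₃ ^ 2` for some integers with `|x₃| ≤ B`. -/
def SmallSquare (n : ℕ) (B : ℝ) : Prop :=
  ∃ x₁ x₂ x₃ : ℤ, x₁ ^ 2 + x₂ ^ 2 + x₃ ^ 2 = (n : ℤ) ∧ |(x₃ : ℝ)| ≤ B

/-- The set `S` has natural density zero. -/
def DensityZero (S : Set ℕ) : Prop :=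
  Tendsto (fun N : ℕ => ((S ∩ Set.Iio N).ncard : ℝ) / N) atTop (𝓝 0)

/-- For every function `ψ` tending to infinity, almost all `n` with `n % 4 ≠ 0`, `n % 8 ≠ 7` are
of the form `x₁ ^ 2 + x₂ ^ 2 + x₃ ^ 2` with `|x₃| ≤ ψ n * √(log n)`, and almost no `n` is of this
form with `|x₃| ≤ √(log n) / ψ n`. -/
theorem result (ψ : ℕ → ℝ) (hψ : Tendsto ψ atTop atTop) :
    DensityZero {n | (n % 4 ≠ 0 ∧ n % 8 ≠ 7) ∧ ¬ SmallSquare n (ψ n * √(Real.log n))} ∧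
      DensityZero {n | SmallSquare n (√(Real.log n) / ψ n)} :=
  Pool.Agent.H44.MS.bridge Pool.Agent.H44.MS.main ψ hψ

end Pool.Agent.Results.MP_232a1c_nt.LeastCoordinate
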